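import Pool.Agent.helper3.FS.SpecE

set_option autoImplicit false

open Complex Metric Set Filter Topology MeasureTheory
open HY (UD T S hd UN RM)
open RT

noncomputable section

namespace FSE

theorem SA1 (hMOB : HY.MOB_stmt) (hABR : RT.ABR_stmt) (hACR : RT.ACR_stmt) (hACK : RT.ACK_stmt) (hKTM : KTM_stmt) (hPAK : PAK_stmt) : SA1_stmt := by
  classical
  intro s ε hs _ hε
  obtain ⟨κ₀, hκ₀, hκ₀1, hR⟩ := hABR s hs
  obtain ⟨C₁, hC₁, hP⟩ := hPAK (min ε s) (4 / 5) (lt_min hε hs) (by norm_num)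
  obtain ⟨C₂, hC₂, hK⟩ := hACK s (4 / 5) hs (by norm_num)
  have hl2 : 0 ≤ Real.log 2 := Real.log_nonneg (by norm_num)
  have hC₂0 : 0 ≤ C₂ := by linarith
  refine ⟨κ₀, hκ₀, hκ₀1, ?_⟩
  intro κ hκ hκκ
  refine ⟨Real.log 2 * C₁ * C₂ ^ κ, mul_nonneg (mul_nonneg hl2 hC₁) (Real.rpow_nonneg hC₂0 _), ?_⟩
  intro W hW I o hS A hA hB y hy X hX
  obtain ⟨-, hcry, hwW, hlift, -, -, -, hsep, hpdle⟩ := hACR s W hW y hy
  obtain ⟨hint, hav⟩ := hR κ hκ hκκ W hW y hy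
  have habs : |(1 / 2 : ℝ)| = 1 / 2 := abs_of_pos (by norm_num)
  have hxU : ∀ p ∈ X, p.2 ∈ UD := fun p hp => (hX p hp).2.1
  have hxo : ∀ p ∈ X, rm W y p.2 = o p.1 := fun p hp => (hX p hp).2.2
  have hoW : ∀ p ∈ X, o p.1 ∈ W := fun p hp => hS.1 _ (hX p hp).1
  have hcrp : ∀ p ∈ X, 0 < cr W (o p.1) := fun p hp => (hACR s W hW _ (hoW p hp)).2.1
  have hck : ∀ p ∈ X, 0 ≤ cr W (o p.1) ^ κ := fun p hp => Real.rpow_nonneg (hcrp p hp).le _
  -- injectivity of the second coordinate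
  have hinj : ∀ p ∈ X, ∀ p' ∈ X, p.2 = p'.2 → p = p' := by
    intro p hp p' hp' h
    by_contra hne
    have h1 : p.1 ≠ p'.1 := fun h1 => hne (Prod.ext h1 h)
    have h2 := hS.2 _ (hX p hp).1 _ (hX p' hp').1 h1
    have h3 : o p'.1 = o p.1 := by rw [← hxo p hp, ← hxo p' hp', h]
    rw [h3] at h2
    have h4 := ((hACR s W hW _ (hoW p hp)).2.2.2.2.1 _ (hoW p hp)).2.2.2.2.2 rfl
    linarith
  -- first part
  have h1 : ∀ p ∈ X, cr W (o p.1) ^ κ * kt p.2 ≤ cr W (o p.1) ^ κ * Real.circleAverage (fun w : ℂ => kt (T w p.2)) 0 (1 / 2) +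
      (if ‖p.2‖ < 4 / 5 then cr W (o p.1) ^ κ * Real.log 2 else 0) := by
    intro p hp
    have h := mul_le_mul_of_nonneg_left (hKTM.2.2 p.2 (hxU p hp)).2 (hck p hp)
    rw [mul_add] at h
    refine h.trans (le_of_eq ?_)
    split_ifs <;> simp
  have hci : ∀ p ∈ X, CircleIntegrable (fun w : ℂ => cr W (o p.1) ^ κ * kt (T w p.2)) 0 (1 / 2) := fun p hp => by
    have h : CircleIntegrable (fun w : ℂ => cr W (o p.1) ^ κ • kt (T w p.2)) 0 (1 / 2) := ((hKTM.2.2 p.2 (hxU p hp)).1).const_smul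
    exact h
  have h2 : ∑ p ∈ X, cr W (o p.1) ^ κ * Real.circleAverage (fun w : ℂ => kt (T w p.2)) 0 (1 / 2) =
      Real.circleAverage (fun w : ℂ => ∑ p ∈ X, cr W (o p.1) ^ κ * kt (T w p.2)) 0 (1 / 2) := by
    rw [Real.circleAverage_fun_sum (f := fun p : ℕ × ℂ => fun w : ℂ => cr W (o p.1) ^ κ * kt (T w p.2)) hci]
    refine Finset.sum_congr rfl fun p _ => ?_
    have := Real.circleAverage_fun_smul (a := cr W (o p.1) ^ κ) (f := fun w : ℂ => kt (T w p.2)) (c := 0) (R := 1 / 2)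
    simp only [smul_eq_mul] at this ⊢
    exact this.symm
  have hint1 : CircleIntegrable (fun w : ℂ => ∑ p ∈ X, cr W (o p.1) ^ κ * kt (T w p.2)) 0 (1 / 2) := by
    have h1 := CircleIntegrable.sum (c := (0 : ℂ)) (R := (1 / 2 : ℝ)) X
      (f := fun p : ℕ × ℂ => fun w : ℂ => cr W (o p.1) ^ κ * kt (T w p.2))
      hci
    have h2 : (∑ p ∈ X, (fun w : ℂ => cr W (o p.1) ^ κ * kt (T w p.2))) = fun w : ℂ => ∑ p ∈ X, cr W (o p.1) ^ κ * kt (T w p.2) := by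
      funext w
      rw [Finset.sum_apply]
    rwa [h2] at h1
  have hint2 : CircleIntegrable (fun w : ℂ => A • cr W (rm W y w) ^ κ) 0 (1 / 2) := hint.const_smul
  have hmono : ∀ w ∈ sphere (0 : ℂ) |(1 / 2 : ℝ)|, ∑ p ∈ X, cr W (o p.1) ^ κ * kt (T w p.2) ≤ A • cr W (rm W y w) ^ κ := by
    intro w hw
    have hwn : ‖w‖ = 1 / 2 := by
      rw [habs, mem_sphere_zero_iff_norm] at hw
      exact hw
    have hwU : w ∈ UD := by
      show w ∈ ball (0 : ℂ) 1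
      rw [mem_ball_zero_iff, hwn]
      norm_num
    obtain ⟨u, hu, hul⟩ := hlift w hwU
    have hu0 : u ≠ 0 := by
      intro h
      rw [h, norm_zero] at hu
      exact zero_ne_one hu
    obtain ⟨-, -, -, -, -, hTinj, -⟩ := hMOB w hwU
    have hinj' : ∀ p ∈ X, ∀ p' ∈ X, ((p.1, u * T w p.2) : ℕ × ℂ) = (p'.1, u * T w p'.2) → p = p' := by
      intro p hp p' hp' h
      obtain ⟨h1, h2⟩ := Prod.mk.inj h
      exact Prod.ext h1 (hTinj (hxU p hp) (hxU p' hp') (mul_left_cancel₀ hu0 h2))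
    have h1 := hB (rm W y w) (hwW w hwU).1 (X.image fun p => ((p.1, u * T w p.2) : ℕ × ℂ)) (by
      intro q hq
      obtain ⟨p, hp, rfl⟩ := Finset.mem_image.1 hq
      exact ⟨(hX p hp).1, hul _ _ (hX p hp).2⟩)
    rw [Finset.sum_image (fun x hx x' hx' h => hinj' x hx x' hx' h)] at h1
    refine le_trans (le_of_eq ?_) h1
    refine Finset.sum_congr rfl fun p _ => ?_
    have : kt (u * T w p.2) = kt (T w p.2) := by
      unfold kt
      rw [norm_mul, hu, one_mul]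
    show cr W (o p.1) ^ κ * kt (T w p.2) = cr W (o p.1) ^ κ * kt (u * T w p.2)
    rw [this]
  have h3 := Real.circleAverage_mono hint1 hint2 hmono
  rw [← h2, Real.circleAverage_fun_smul, smul_eq_mul] at h3
  have h4 : A * Real.circleAverage (fun w : ℂ => cr W (rm W y w) ^ κ) 0 (1 / 2) ≤ A * ((1 - κ / 8) * cr W y ^ κ) :=
    mul_le_mul_of_nonneg_left hav hA
  -- second part
  set X' : Finset (ℕ × ℂ) := X.filter (fun p => ‖p.2‖ < 4 / 5) with hX'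
  have hmX : ∀ p ∈ X', p ∈ X ∧ ‖p.2‖ < 4 / 5 := fun p hp => Finset.mem_filter.1 hp
  have h5 : ∑ p ∈ X, (if ‖p.2‖ < 4 / 5 then cr W (o p.1) ^ κ * Real.log 2 else 0) = ∑ p ∈ X', cr W (o p.1) ^ κ * Real.log 2 := by
    rw [hX', Finset.sum_filter]
  have h6 : ∀ p ∈ X', cr W (o p.1) ^ κ * Real.log 2 ≤ C₂ ^ κ * cr W y ^ κ * Real.log 2 := by
    intro p hp
    refine mul_le_mul_of_nonneg_right ?_ hl2
    rw [← Real.mul_rpow hC₂0 hcry.le]
    refine Real.rpow_le_rpow (hcrp p (hmX p hp).1).le ?_ hκ.le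
    have h := (hK W hW y hy p.2 (hmX p hp).2.le).1
    rw [hxo p (hmX p hp).1] at h
    exact h
  have h7 : (X'.card : ℝ) ≤ C₁ := by
    have hc : (X'.image Prod.snd).card = X'.card := by
      refine Finset.card_image_of_injOn ?_
      intro p hp p' hp' h
      exact hinj p (hmX p hp).1 p' (hmX p' hp').1 h
    rw [← hc]
    refine hP _ ?_ ?_
    · intro x hx
      obtain ⟨p, hp, rfl⟩ := Finset.mem_image.1 hx
      exact (hmX p hp).2.le
    · intro x hx x' hx' hne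
      obtain ⟨p, hp, rfl⟩ := Finset.mem_image.1 hx
      obtain ⟨p', hp', rfl⟩ := Finset.mem_image.1 hx'
      have hpX := (hmX p hp).1
      have hpX' := (hmX p' hp').1
      by_cases h1 : p.1 = p'.1
      · refine (min_le_right _ _).trans (hsep (o p.1) _ _ (hX p hpX).2 ?_ hne)
        rw [h1]
        exact (hX p' hpX').2
      · refine (min_le_left _ _).trans ((hS.2 _ (hX p hpX).1 _ (hX p' hpX').1 h1).trans ?_)
        have := hpdle p.2 (hxU p hpX) p'.2 (hxU p' hpX')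
        rwa [hxo p hpX, hxo p' hpX'] at this
  have h8 : ∑ p ∈ X', cr W (o p.1) ^ κ * Real.log 2 ≤ C₁ * (C₂ ^ κ * cr W y ^ κ * Real.log 2) := by
    calc ∑ p ∈ X', cr W (o p.1) ^ κ * Real.log 2 ≤ ∑ _p ∈ X', C₂ ^ κ * cr W y ^ κ * Real.log 2 := Finset.sum_le_sum h6
      _ = (X'.card : ℝ) * (C₂ ^ κ * cr W y ^ κ * Real.log 2) := by rw [Finset.sum_const, nsmul_eq_mul]
      _ ≤ C₁ * (C₂ ^ κ * cr W y ^ κ * Real.log 2) :=
        mul_le_mul_of_nonneg_right h7 (mul_nonneg (mul_nonneg (Real.rpow_nonneg hC₂0 _) (Real.rpow_nonneg hcry.le _)) hl2)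
  have h9 : ∑ p ∈ X, cr W (o p.1) ^ κ * kt p.2 ≤ ∑ p ∈ X, cr W (o p.1) ^ κ * Real.circleAverage (fun w : ℂ => kt (T w p.2)) 0 (1 / 2) +
      ∑ p ∈ X, (if ‖p.2‖ < 4 / 5 then cr W (o p.1) ^ κ * Real.log 2 else 0) := by
    rw [← Finset.sum_add_distrib]
    exact Finset.sum_le_sum h1
  rw [h5] at h9
  calc ∑ p ∈ X, cr W (o p.1) ^ κ * kt p.2 ≤ A * ((1 - κ / 8) * cr W y ^ κ) + C₁ * (C₂ ^ κ * cr W y ^ κ * Real.log 2) := by linarith
    _ = ((1 - κ / 8) * A + Real.log 2 * C₁ * C₂ ^ κ) * cr W y ^ κ := by ring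

end FSE
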